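import Pool.Agent.helper17.LQ.SpecQ

/-!
# Row lq:QBB (MP_07c750_an): few bad cells, L4 version
-/

open MeasureTheory Set

set_option autoImplicit false

namespace Pool.Agent.LP

noncomputable section

theorem QBB_RGmono {N κ a : ℝ} {T T' : Finset ℝ} (h : T' ⊆ T) (hT : RG N κ a T) : RG N κ a T' := by
  intro y R hR
  refine le_trans ?_ (hT y R hR)
  exact_mod_cast Finset.card_le_card (Finset.filter_subset_filter _ h)

/-- The frequencies of a bad slope. -/
theorem QBB_freq {C1 a η κ : ℝ} {G m : ℕ} {U : Set ℝ} (hm4 : 4 ≤ Real.exp (((G : ℝ) - 1) * m))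
    (hR : ∀ (D : Finset ℤ) (c x : ℝ), 1 ≤ c → c ≤ 4 → AR C1 a η G m D → RG (Real.exp (G * m)) κ a (D.image fun d : ℤ => c * ((d : ℝ) - x)))
    (X : ℝ) (hX : ¬ GD U C1 a η G m X) :
    ∃ T : Finset ℝ, RG (Real.exp (G * m)) κ a T ∧ (∀ t ∈ T, Real.exp (((G : ℝ) - 1) * m) / 4 ≤ |t| ∧ |t| ≤ 8 * C1 * Real.exp (G * m)) ∧
      Real.exp (-m) ≤ ∑ t ∈ T, ‖kk U X t‖ := by
  classical
  unfold GD at hX
  push Not at hX
  obtain ⟨D, c, hD, hc1, hc4, d, hd, hs⟩ := hX
  set F := D.filter (fun d' : ℤ => ((hG G m : ℕ) : ℤ) ≤ |d' - d|) with hF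
  refine ⟨F.image fun d' : ℤ => c * ((d' : ℝ) - d), ?_, ?_, ?_⟩
  · exact QBB_RGmono (Finset.image_subset_image (Finset.filter_subset _ _)) (hR D c d hc1 hc4 hD)
  · intro t ht
    obtain ⟨d', hd', rfl⟩ := Finset.mem_image.1 ht
    obtain ⟨h1, h2⟩ := Finset.mem_filter.1 hd'
    have h3 : ((hG G m : ℕ) : ℝ) ≤ |(d' : ℝ) - d| := by
      have : (((hG G m : ℕ) : ℤ) : ℝ) ≤ ((|d' - d| : ℤ) : ℝ) := by exact_mod_cast h2
      rw [Int.cast_abs, Int.cast_sub] at this
      exact_mod_cast this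
    have h4 : Real.exp (((G : ℝ) - 1) * m) / 2 - 1 < ((hG G m : ℕ) : ℝ) := by
      unfold hG
      exact Nat.sub_one_lt_floor _
    rw [abs_mul, abs_of_nonneg (by linarith : (0 : ℝ) ≤ c)]
    constructor
    · have h5 : |(d' : ℝ) - d| ≤ c * |(d' : ℝ) - d| := le_mul_of_one_le_left (abs_nonneg _) hc1
      linarith
    · have h6 : |(d' : ℝ) - d| ≤ 2 * (C1 * Real.exp (G * m)) := by
        calc |(d' : ℝ) - d| ≤ |(d' : ℝ)| + |(d : ℝ)| := abs_sub _ _
          _ ≤ 2 * (C1 * Real.exp (G * m)) := by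
            have := hD.1 d' h1
            have := hD.1 d hd
            linarith
      calc c * |(d' : ℝ) - d| ≤ 4 * (2 * (C1 * Real.exp (G * m))) :=
            mul_le_mul hc4 h6 (abs_nonneg _) (by norm_num)
        _ = 8 * C1 * Real.exp (G * m) := by ring
  · rw [Finset.sum_image]
    · exact hs.le
    · intro x _ y _ hxy
      have h7 : c * ((x : ℝ) - d) = c * ((y : ℝ) - d) := hxy
      have h8 : (x : ℝ) - d = (y : ℝ) - d := mul_left_cancel₀ (by linarith) h7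
      have h9 : (x : ℝ) = (y : ℝ) := by linarith
      exact_mod_cast h9

theorem QBB_proof (h1 : QBS_stmt) (h2 : RGG_stmt) (h3 : QUG_stmt) (h4 : QKG_stmt) : QBB_stmt := by
  classical
  intro C1 a η h β b G hC1 ha0 hη haη hh0 hhη hah hah' h2a hG hb0 hb1 hexp
  obtain ⟨C, hC, hB⟩ := h1 (8 * C1) (by linarith)
  obtain ⟨C', hC', hQ⟩ := h4 C1 b hC1 hb0 hb1
  have hG0 : (2 : ℝ) ≤ (G : ℝ) := by exact_mod_cast hG
  have hG1 : 1 ≤ G := by omega
  set κ : ℝ := 1 / (G : ℝ) + 3 * η / 2 with hκ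
  obtain ⟨m0, hR⟩ := h2 C1 a η κ G hC1 ha0 hη.le haη hG1 (by rw [hκ]; linarith)
  set A : ℝ := 10000 * C * C' * C1 ^ 4 * (G : ℝ) ^ 3 with hA
  have hA0 : 0 < A := by positivity
  obtain ⟨m1, hm1⟩ := exists_nat_gt (Real.log A)
  refine ⟨max (max m0 m1) 2, ?_⟩
  intro m U K hm hU hU2 hUG hAR hK
  have hm0 : m0 ≤ m := le_trans (le_trans (le_max_left _ _) (le_max_left _ _)) hm
  have hm1' : (m1 : ℝ) ≤ (m : ℝ) := by exact_mod_cast (le_trans (le_trans (le_max_right _ _) (le_max_left _ _)) hm)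
  have hm2' : 2 ≤ m := le_trans (le_max_right _ _) hm
  have hm2 : (2 : ℝ) ≤ (m : ℝ) := by exact_mod_cast hm2'
  have hAm : A < Real.exp m := by
    rw [← Real.log_lt_iff_lt_exp hA0]
    linarith
  set N : ℝ := Real.exp (G * m) with hN
  have hN0 : 0 < N := Real.exp_pos _
  have hm4 : 4 ≤ Real.exp (((G : ℝ) - 1) * m) := by
    have h1 : (2 : ℝ) ≤ ((G : ℝ) - 1) * m := by nlinarith
    have h2 : (4 : ℝ) ≤ Real.exp 2 := by
      have h3 : Real.exp 2 = Real.exp 1 * Real.exp 1 := by rw [← Real.exp_add]; norm_num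
      have h4 := Real.exp_one_gt_d9
      rw [h3]
      nlinarith
    exact h2.trans (Real.exp_le_exp.2 h1)
  -- the frequencies
  have hfr : ∀ X : ℝ, ∃ T : Finset ℝ, ¬ GD U C1 a η G m X → (RG N κ a T ∧ (∀ t ∈ T, Real.exp (((G : ℝ) - 1) * m) / 4 ≤ |t| ∧ |t| ≤ 8 * C1 * N) ∧
      Real.exp (-m) ≤ ∑ t ∈ T, ‖kk U X t‖) := by
    intro X
    by_cases hX : GD U C1 a η G m X
    · exact ⟨∅, fun h => absurd hX h⟩
    · obtain ⟨T, hT⟩ := QBB_freq (κ := κ) hm4 (fun D c x h1 h2 h3 => hR m D c x hm0 h1 h2 h3) X hX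
      exact ⟨T, fun _ => hT⟩
  choose T hT using hfr
  -- the slopes
  have hKX : ∀ k : ℤ, ∃ X : ℝ, k ∈ K → ((k : ℝ) * (b / 4 * Real.exp (-(G * m))) ≤ X ∧ X < (k + 1) * (b / 4 * Real.exp (-(G * m))) ∧ |X| ≤ 1 / 16 ∧ ¬ GD U C1 a η G m X) := by
    intro k
    by_cases hk : k ∈ K
    · obtain ⟨X, hX⟩ := hK k hk
      exact ⟨X, fun _ => hX⟩
    · exact ⟨0, fun h => absurd h hk⟩
  choose X hX using hKX
  obtain ⟨hcard, hreg⟩ := hQ h η G m K X hh0 hη.le hhη hG1 (by omega) hAR (fun k hk => ⟨(hX k hk).1, (hX k hk).2.1⟩)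
  set T0 : ℝ := Real.exp (((G : ℝ) - 1) * m) / 4 with hT0
  have hT0N : T0 ≤ N := by
    have : Real.exp (((G : ℝ) - 1) * m) ≤ N := Real.exp_le_exp.2 (by nlinarith)
    have := Real.exp_pos (((G : ℝ) - 1) * m)
    rw [hT0]
    linarith
  have hGm : (0 : ℝ) < (G : ℝ) * m := by positivity
  have hE1 : (1 : ℝ) ≤ Real.exp (m + η * (G * m)) := Real.one_le_exp (by positivity)
  have hκ0 : 0 ≤ κ := by rw [hκ]; positivity
  have hNκ : N ^ κ = Real.exp (κ * (G * m)) := by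
    rw [hN, ← Real.exp_mul]
    ring_nf
  have hK2 : (1 : ℝ) ≤ N ^ κ := by
    rw [hNκ]
    exact Real.one_le_exp (by positivity)
  have hmain := hB a h N T0 (Real.exp (-m)) (C' * Real.exp (m + η * (G * m))) (N ^ κ) (5 * C1 * Real.exp (m + η * (G * m))) U (K.image X) T
    ha0 hh0 (by linarith) hah hah' h2a (by rw [hT0]; linarith) hT0N (Real.exp_pos _).le (by nlinarith) hK2 (by nlinarith) hU hU2
    (h3 C1 h η G m U hC1 hh0 hη.le hhη hG1 (by omega) hUG)
    (by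
      intro Y hY R hR1
      obtain ⟨k, hk, rfl⟩ := Finset.mem_image.1 hY
      exact hreg k hk R hR1)
    (by
      intro Y hY
      obtain ⟨k, hk, rfl⟩ := Finset.mem_image.1 hY
      obtain ⟨-, -, g3, g4⟩ := hX k hk
      obtain ⟨f1, f2, -⟩ := hT (X k) g4
      exact ⟨g3, fun y R hR1 => f1 y R hR1, f2⟩)
    (by
      intro Y hY
      obtain ⟨k, hk, rfl⟩ := Finset.mem_image.1 hY
      obtain ⟨-, -, g3, g4⟩ := hX k hk
      exact (hT (X k) g4).2.2)
  -- exponents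
  have hNT : N / T0 = 4 * Real.exp m := by
    rw [hN, hT0]
    have : Real.exp (G * m) = Real.exp (((G : ℝ) - 1) * m) * Real.exp m := by
      rw [← Real.exp_add]; ring_nf
    rw [this]
    field_simp
  have hNpow : N ^ (3 * a + 2 * h - 2) = Real.exp ((3 * a + 2 * h - 2) * (G * m)) := by
    rw [hN, ← Real.exp_mul]
    ring_nf
  have hlog : Real.log N = G * m := by rw [hN, Real.log_exp]
  rw [hcard, hNT, hNpow, hlog, hNκ] at hmain
  have hκm : κ * (G * m) = m + 3 * η / 2 * (G * m) := by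
    rw [hκ]
    field_simp
  rw [hκm] at hmain
  have hcube : (1 + (G : ℝ) * m) ^ 3 ≤ (G : ℝ) ^ 3 * Real.exp (3 * m) := by
    have e1 : 1 + (G : ℝ) * m ≤ G * Real.exp m := by
      have e2 : (m : ℝ) + 1 ≤ Real.exp m := Real.add_one_le_exp _
      nlinarith
    calc (1 + (G : ℝ) * m) ^ 3 ≤ (G * Real.exp m) ^ 3 := pow_le_pow_left₀ (by positivity) e1 3
      _ = (G : ℝ) ^ 3 * Real.exp (3 * m) := by
        rw [mul_pow, ← Real.exp_nat_mul]
        norm_num
  set x : ℝ := (G : ℝ) * m with hx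
  have k1 : (K.card : ℝ) = (K.card : ℝ) * Real.exp (-m) ^ 4 * Real.exp (4 * m) := by
    rw [mul_assoc, ← Real.exp_nat_mul, ← Real.exp_add]
    norm_num
  have k2 : C * (1 + x) ^ 3 * (4 * Real.exp m) ^ 2 * (C' * Real.exp (m + η * x)) * Real.exp (m + 3 * η / 2 * x) ^ 4 * (5 * C1 * Real.exp (m + η * x)) ^ 4 * Real.exp ((3 * a + 2 * h - 2) * x) * Real.exp (4 * m)
      = 10000 * C * C' * C1 ^ 4 * (1 + x) ^ 3 * Real.exp (15 * m + 11 * η * x + (3 * a + 2 * h - 2) * x) := by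
    have e3 : Real.exp (15 * m + 11 * η * x + (3 * a + 2 * h - 2) * x) = Real.exp m ^ 2 * Real.exp (m + η * x) * Real.exp (m + 3 * η / 2 * x) ^ 4 * Real.exp (m + η * x) ^ 4 * Real.exp ((3 * a + 2 * h - 2) * x) * Real.exp (4 * m) := by
      rw [← Real.exp_nat_mul, ← Real.exp_nat_mul, ← Real.exp_nat_mul, ← Real.exp_add, ← Real.exp_add, ← Real.exp_add, ← Real.exp_add, ← Real.exp_add]
      congr 1
      push_cast
      ring
    rw [e3]
    ring
  calc (K.card : ℝ) = (K.card : ℝ) * Real.exp (-m) ^ 4 * Real.exp (4 * m) := k1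
    _ ≤ (C * (1 + x) ^ 3 * (4 * Real.exp m) ^ 2 * (C' * Real.exp (m + η * x)) * Real.exp (m + 3 * η / 2 * x) ^ 4 * (5 * C1 * Real.exp (m + η * x)) ^ 4 * Real.exp ((3 * a + 2 * h - 2) * x)) * Real.exp (4 * m) :=
        mul_le_mul_of_nonneg_right hmain (Real.exp_pos _).le
    _ = 10000 * C * C' * C1 ^ 4 * (1 + x) ^ 3 * Real.exp (15 * m + 11 * η * x + (3 * a + 2 * h - 2) * x) := k2
    _ ≤ 10000 * C * C' * C1 ^ 4 * ((G : ℝ) ^ 3 * Real.exp (3 * m)) * Real.exp (15 * m + 11 * η * x + (3 * a + 2 * h - 2) * x) := by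
        refine mul_le_mul_of_nonneg_right (mul_le_mul_of_nonneg_left hcube (by positivity)) (Real.exp_pos _).le
    _ = A * Real.exp (18 * m + 11 * η * x + (3 * a + 2 * h - 2) * x) := by
        have e4 : Real.exp (18 * m + 11 * η * x + (3 * a + 2 * h - 2) * x) = Real.exp (3 * m) * Real.exp (15 * m + 11 * η * x + (3 * a + 2 * h - 2) * x) := by
          rw [← Real.exp_add]
          congr 1
          ring
        rw [e4, hA]
        ring
    _ ≤ Real.exp m * Real.exp (18 * m + 11 * η * x + (3 * a + 2 * h - 2) * x) := mul_le_mul_of_nonneg_right hAm.le (Real.exp_pos _).le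
    _ = Real.exp (19 * m + 11 * η * x + (3 * a + 2 * h - 2) * x) := by
        rw [← Real.exp_add]
        congr 1
        ring
    _ ≤ Real.exp (β * x) := by
        apply Real.exp_le_exp.2
        have e5 : (m : ℝ) = 1 / (G : ℝ) * x := by
          rw [hx]
          field_simp
        have e6 : 19 * (m : ℝ) + 11 * η * x + (3 * a + 2 * h - 2) * x ≤ (3 * a + 2 * h - 2 + 12 * η + 24 / G) * x := by
          have e7 : 24 / (G : ℝ) * x = 24 * m := by
            rw [hx]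
            field_simp
          have e8 : 0 ≤ η * x := by positivity
          nlinarith
        exact e6.trans (mul_le_mul_of_nonneg_right hexp.le hGm.le)

end

end Pool.Agent.LP

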