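import Pool.Agent.helper57.LQ.SpecB

/-!
# Project lq (MP_ebc808_nt), row lq:HT3 (the Hecke operator `T 3` on the powers of `DD`)
-/

set_option autoImplicit false

open Finset PowerSeries

noncomputable section

namespace Pool.Agent.LQ

/-- The operator `U`. -/
def HT3_U (f : FF) : FF := PowerSeries.mk fun m => coeff (3 * m) f

theorem HT3_U_add (f g : FF) : HT3_U (f + g) = HT3_U f + HT3_U g := by
  ext m
  simp [HT3_U]

theorem HT3_U_ex (h : FF) : HT3_U (ex 3 h) = h := by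
  ext m
  unfold HT3_U ex
  rw [coeff_mk, coeff_mk, if_pos (Dvd.intro m rfl), Nat.mul_div_cancel_left m (by norm_num)]

theorem HT3_U_mul (h f : FF) : HT3_U (ex 3 h * f) = h * HT3_U f := by
  ext m
  unfold HT3_U
  rw [coeff_mk, coeff_mul, coeff_mul]
  symm
  apply Finset.sum_of_injOn (fun x : ℕ × ℕ => (3 * x.1, 3 * x.2))
  · intro x _ y _ hxy
    simp only [Prod.mk.injEq] at hxy
    ext
    · omega
    · omega
  · intro x hx
    have hx1 : x.1 + x.2 = m := by simpa using hx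
    have : (3 * x.1) + (3 * x.2) = 3 * m := by omega
    simpa using this
  · intro x hx hx2
    have hx1 : x.1 + x.2 = 3 * m := by simpa using hx
    have hnd : ¬ 3 ∣ x.1 := by
      intro hd
      apply hx2
      refine ⟨(x.1 / 3, x.2 / 3), ?_, ?_⟩
      · have : x.1 / 3 + x.2 / 3 = m := by omega
        simpa using this
      · ext
        · simp only
          omega
        · simp only
          omega
    unfold ex
    rw [coeff_mk, if_neg hnd, zero_mul]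
  · intro x hx
    unfold ex
    rw [coeff_mk, coeff_mk, if_pos (Dvd.intro x.1 rfl), Nat.mul_div_cancel_left x.1 (by norm_num)]

theorem HT3_U_zero (f : FF) (h : ∀ m : ℕ, coeff m f ≠ 0 → ¬ 3 ∣ m) : HT3_U f = 0 := by
  ext m
  unfold HT3_U
  rw [coeff_mk, map_zero]
  by_contra hne
  exact h _ hne (Dvd.intro m rfl)

theorem HT3_T (hEXP : EXP_stmt) (f : FF) : T 3 f = HT3_U f + ex 3 f := by
  ext m
  rw [hEXP.2.2.2.2.2 3 m f Nat.prime_three]
  simp [HT3_U, ex]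

/-- multiplication by a power -/
theorem HT3_mul (g : FF) (P Q : ℕ → Prop) (i : ℕ) (h : ∀ j, P j → Q (i + j)) (f : FF)
    (hf : f ∈ Submodule.span (ZMod 2) {f : FF | ∃ j : ℕ, P j ∧ f = g ^ j}) :
    g ^ i * f ∈ Submodule.span (ZMod 2) {f : FF | ∃ j : ℕ, Q j ∧ f = g ^ j} := by
  induction hf using Submodule.span_induction with
  | mem x hx =>
    obtain ⟨j, hj, rfl⟩ := hx
    apply Submodule.subset_span
    exact ⟨i + j, h j hj, (pow_add g i j).symm⟩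
  | zero => rw [mul_zero]; exact Submodule.zero_mem _
  | add x y _ _ hx hy => rw [mul_add]; exact Submodule.add_mem _ hx hy
  | smul c x _ hx => rw [mul_smul_comm]; exact Submodule.smul_mem _ c hx

/-- squares -/
theorem HT3_sq (g : FF) (P Q : ℕ → Prop) (h : ∀ j, P j → Q (2 * j)) (f : FF)
    (hf : f ∈ Submodule.span (ZMod 2) {f : FF | ∃ j : ℕ, P j ∧ f = g ^ j}) :
    f ^ 2 ∈ Submodule.span (ZMod 2) {f : FF | ∃ j : ℕ, Q j ∧ f = g ^ j} := by
  induction hf using Submodule.span_induction with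
  | mem x hx =>
    obtain ⟨j, hj, rfl⟩ := hx
    apply Submodule.subset_span
    refine ⟨2 * j, h j hj, ?_⟩
    rw [← pow_mul, mul_comm j 2]
  | zero => rw [zero_pow (by norm_num)]; exact Submodule.zero_mem _
  | add x y _ _ hx hy =>
    have h1 : (x + y) ^ 2 = x ^ 2 + y ^ 2 := by
      have h2 : (x + y) ^ 2 = x ^ 2 + y ^ 2 + (x * y + x * y) := by ring
      rw [h2, add_self_FF, add_zero]
    rw [h1]
    exact Submodule.add_mem _ hx hy
  | smul c x _ hx =>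
    rw [smul_pow]
    exact Submodule.smul_mem _ _ hx

theorem HT3_span_mono (g : FF) (P Q : ℕ → Prop) (h : ∀ j, P j → Q j) (f : FF)
    (hf : f ∈ Submodule.span (ZMod 2) {f : FF | ∃ j : ℕ, P j ∧ f = g ^ j}) :
    f ∈ Submodule.span (ZMod 2) {f : FF | ∃ j : ℕ, Q j ∧ f = g ^ j} := by
  have := HT3_mul g P Q 0 (fun j hj => by rw [zero_add]; exact h j hj) f hf
  rwa [pow_zero, one_mul] at this

theorem HT3_rec (hME3 : ME3_stmt) (hEXP : EXP_stmt) (k : ℕ) :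
    T 3 (DD ^ (k + 4)) = DD ^ 1 * T 3 (DD ^ (k + 1)) + DD ^ 4 * T 3 (DD ^ k) := by
  have e1 := hEXP.1
  have hpow : ∀ n : ℕ, ex 3 DD ^ n = ex 3 (DD ^ n) := fun n =>
    ((e1 3 DD DD (by norm_num)).2.2.2 n).symm
  have key := hME3.2
  have h4 : DD ^ 4 = ex 3 DD * DD + ex 3 DD ^ 4 := by
    have h5 : DD ^ 4 + ex 3 DD ^ 4 + ex 3 DD ^ 4 = DD * ex 3 DD + ex 3 DD ^ 4 := by rw [key]
    rw [add_assoc, add_self_FF, add_zero] at h5
    rw [h5]
    ring
  have hz4 : ex 3 DD ^ 4 = DD ^ 4 + DD * ex 3 DD := by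
    have h5 : DD ^ 4 + (DD ^ 4 + ex 3 DD ^ 4) = DD ^ 4 + DD * ex 3 DD := by rw [key]
    rw [← add_assoc, add_self_FF, zero_add] at h5
    exact h5
  have hU : HT3_U (DD ^ (k + 4)) = DD * HT3_U (DD ^ (k + 1)) + DD ^ 4 * HT3_U (DD ^ k) := by
    have h6 : DD ^ (k + 4) = ex 3 DD * DD ^ (k + 1) + ex 3 (DD ^ 4) * DD ^ k := by
      calc DD ^ (k + 4) = DD ^ 4 * DD ^ k := by ring
        _ = (ex 3 DD * DD + ex 3 DD ^ 4) * DD ^ k := by rw [← h4]
        _ = ex 3 DD * DD ^ (k + 1) + ex 3 DD ^ 4 * DD ^ k := by ring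
        _ = _ := by rw [hpow]
    rw [h6, HT3_U_add, HT3_U_mul, HT3_U_mul]
  have hE : ex 3 (DD ^ (k + 4)) = DD * ex 3 (DD ^ (k + 1)) + DD ^ 4 * ex 3 (DD ^ k) := by
    rw [← hpow, ← hpow, ← hpow]
    calc ex 3 DD ^ (k + 4) = ex 3 DD ^ 4 * ex 3 DD ^ k := by ring
      _ = (DD ^ 4 + DD * ex 3 DD) * ex 3 DD ^ k := by rw [hz4]
      _ = _ := by ring
  rw [HT3_T hEXP, HT3_T hEXP, HT3_T hEXP, hU, hE]
  ring

theorem HT3_dbl (hEXP : EXP_stmt) (k : ℕ) : T 3 (DD ^ (2 * k)) = T 3 (DD ^ k) ^ 2 := by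
  rw [mul_comm, pow_mul]
  exact hEXP.2.2.2.2.1 3 (DD ^ k) (by decide)

theorem HT3_p0 (hEXP : EXP_stmt) : T 3 (DD ^ 0) = 0 := by
  rw [HT3_T hEXP, pow_zero, (hEXP.1 3 DD DD (by norm_num)).2.2.1]
  have h : HT3_U (1 : FF) = 1 := by
    have := HT3_U_ex (1 : FF)
    rwa [(hEXP.1 3 DD DD (by norm_num)).2.2.1] at this
  rw [h, add_self_FF]

theorem HT3_Utt (hTGR : TGR_stmt) (i : ℕ) (hi : i % 3 ≠ 0) : HT3_U (tt ^ i) = 0 := by
  apply HT3_U_zero
  intro m hm hd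
  have := hTGR.2.2.2.1 i m hm
  omega

theorem HT3_r (hEXP : EXP_stmt) (k : ℕ) : ex 9 DD ^ k = ex 3 (ex 3 (DD ^ k)) := by
  have h1 := ((hEXP.1 9 DD DD (by norm_num)).2.2.2 k)
  rw [← h1, hEXP.2.1 3 3 _ (by norm_num) (by norm_num)]

theorem HT3_p1 (hME3 : ME3_stmt) (hTGR : TGR_stmt) (hEXP : EXP_stmt) : T 3 (DD ^ 1) = 0 := by
  rw [HT3_T hEXP, pow_one]
  have h1 : HT3_U DD = ex 3 DD := by
    have h2 : HT3_U DD = HT3_U (tt + ex 9 DD) := by rw [← hME3.1]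
    rw [h2, HT3_U_add]
    have h3 := HT3_Utt hTGR 1 (by norm_num)
    rw [pow_one] at h3
    have h4 := HT3_r hEXP 1
    rw [pow_one, pow_one] at h4
    rw [h3, h4, HT3_U_ex, zero_add]
  rw [h1, add_self_FF]

theorem HT3_cube (a b : FF) : (a + b) ^ 3 = a ^ 3 + (b * a ^ 2 + (b ^ 2 * a ^ 1 + b ^ 3)) := by
  have h : (a + b) ^ 3 = a ^ 3 + (b * a ^ 2 + (b ^ 2 * a ^ 1 + b ^ 3)) +
      ((b * a ^ 2 + b * a ^ 2) + (b ^ 2 * a + b ^ 2 * a)) := by ring
  rw [h, add_self_FF, add_self_FF, add_zero, add_zero]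

theorem HT3_p3 (hME3 : ME3_stmt) (hTGR : TGR_stmt) (hEXP : EXP_stmt) : T 3 (DD ^ 3) = DD := by
  rw [HT3_T hEXP]
  have h1 : DD ^ 3 = tt ^ 3 + (ex 3 (ex 3 DD) * tt ^ 2 + (ex 3 (ex 3 (DD ^ 2)) * tt ^ 1 + ex 3 (ex 3 (DD ^ 3)))) := by
    rw [← HT3_r hEXP 2, ← HT3_r hEXP 3]
    have h4 := HT3_r hEXP 1
    rw [pow_one, pow_one] at h4
    rw [← h4, ← HT3_cube]
    conv_lhs => rw [hME3.1]
  have h2 : HT3_U (DD ^ 3) = DD + ex 3 (DD ^ 3) := by
    conv_lhs => rw [h1]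
    rw [HT3_U_add, HT3_U_add, HT3_U_add, HT3_U_mul, HT3_U_mul, HT3_U_ex,
      HT3_Utt hTGR 2 (by norm_num), HT3_Utt hTGR 1 (by norm_num), mul_zero, mul_zero, zero_add,
      zero_add, ← hTGR.2.2.1, HT3_U_ex]
  rw [h2, add_assoc, add_self_FF, add_zero]

/-- the span of the `DD ^ j`, `j + 2 ≤ k`, `j = k mod 2` -/
theorem HT3_D (hME3 : ME3_stmt) (hTGR : TGR_stmt) (hEXP : EXP_stmt) (k : ℕ) :
    T 3 (DD ^ k) ∈ Submodule.span (ZMod 2)
      {f : FF | ∃ j : ℕ, (j + 2 ≤ k ∧ j % 2 = k % 2) ∧ f = DD ^ j} := by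
  induction k using Nat.strong_induction_on with
  | _ k ih =>
  rcases Nat.lt_or_ge k 5 with hk | hk
  · have hc : k = 0 ∨ k = 1 ∨ k = 2 ∨ k = 3 ∨ k = 4 := by omega
    rcases hc with rfl | rfl | rfl | rfl | rfl
    · rw [HT3_p0 hEXP]; exact Submodule.zero_mem _
    · rw [HT3_p1 hME3 hTGR hEXP]; exact Submodule.zero_mem _
    · have h2 : T 3 (DD ^ 2) = 0 := by
        have := HT3_dbl hEXP 1
        rwa [HT3_p1 hME3 hTGR hEXP, zero_pow (by norm_num)] at this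
      rw [h2]
      exact Submodule.zero_mem _
    · rw [HT3_p3 hME3 hTGR hEXP]
      apply Submodule.subset_span
      exact ⟨1, by norm_num, (pow_one DD).symm⟩
    · have h4 : T 3 (DD ^ 4) = 0 := by
        have h3 : T 3 (DD ^ (2 * 1)) = 0 := by
          rw [HT3_dbl hEXP 1, HT3_p1 hME3 hTGR hEXP, zero_pow (by norm_num)]
        have := HT3_dbl hEXP (2 * 1)
        rwa [h3, zero_pow (by norm_num)] at this
      rw [h4]
      exact Submodule.zero_mem _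
  · rcases Nat.mod_two_eq_zero_or_one k with h2 | h2
    · obtain ⟨m, rfl⟩ : ∃ m, k = 2 * m := ⟨k / 2, by omega⟩
      rw [HT3_dbl hEXP]
      exact HT3_sq DD _ _ (fun j hj => by omega) _ (ih m (by omega))
    · obtain ⟨n, rfl⟩ : ∃ n, k = n + 4 := ⟨k - 4, by omega⟩
      rw [HT3_rec hME3 hEXP]
      refine Submodule.add_mem _ ?_ ?_
      · exact HT3_mul DD _ _ 1 (fun j hj => by omega) _ (ih (n + 1) (by omega))
      · exact HT3_mul DD _ _ 4 (fun j hj => by omega) _ (ih n (by omega))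

theorem HT3_VV (l : ℕ) (f : FF) (hf : f ∈ Submodule.span (ZMod 2)
      {f : FF | ∃ j : ℕ, (j < l ∧ j % 2 = 1) ∧ f = DD ^ j}) : f ∈ VV 2 DD l := by
  unfold VV
  refine Submodule.span_mono ?_ hf
  rintro g ⟨j, ⟨h1, h2⟩, rfl⟩
  exact ⟨j, h1, Nat.coprime_two_right.2 (Nat.odd_iff.2 h2), rfl⟩

theorem HT3_aux (hME3 : ME3_stmt) (hTGR : TGR_stmt) (hEXP : EXP_stmt) (k : ℕ) (hk : k % 2 = 1) :
    T 3 (DD ^ k) + (if k % 4 = 3 then DD ^ (k - 2) else 0) ∈ Submodule.span (ZMod 2)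
      {f : FF | ∃ j : ℕ, (j < k - 2 ∧ j % 2 = 1) ∧ f = DD ^ j} := by
  induction k using Nat.strong_induction_on with
  | _ k ih =>
  rcases Nat.lt_or_ge k 5 with hk5 | hk5
  · have hc : k = 1 ∨ k = 3 := by omega
    rcases hc with rfl | rfl
    · rw [HT3_p1 hME3 hTGR hEXP, if_neg (by norm_num), add_zero]; exact Submodule.zero_mem _
    · rw [HT3_p3 hME3 hTGR hEXP, if_pos (by norm_num), show (3 - 2 : ℕ) = 1 from rfl, pow_one, add_self_FF]
      exact Submodule.zero_mem _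
  · obtain ⟨n, rfl⟩ : ∃ n, k = n + 4 := ⟨k - 4, by omega⟩
    have hn := ih n (by omega) (by omega)
    rw [HT3_rec hME3 hEXP]
    have h1 : DD ^ 1 * T 3 (DD ^ (n + 1)) ∈ Submodule.span (ZMod 2)
        {f : FF | ∃ j : ℕ, (j < n + 4 - 2 ∧ j % 2 = 1) ∧ f = DD ^ j} := by
      obtain ⟨m, hm⟩ : ∃ m, n + 1 = 2 * m := ⟨(n + 1) / 2, by omega⟩
      rw [hm, HT3_dbl hEXP]
      have h3 := HT3_sq DD _ (fun j => j + 4 ≤ 2 * m ∧ j % 2 = 0) (fun j hj => by omega) _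
        (HT3_D hME3 hTGR hEXP m)
      exact HT3_mul DD _ _ 1 (fun j hj => by omega) _ h3
    have h2 : DD ^ 4 * T 3 (DD ^ n) + (if (n + 4) % 4 = 3 then DD ^ (n + 4 - 2) else 0) ∈
        Submodule.span (ZMod 2) {f : FF | ∃ j : ℕ, (j < n + 4 - 2 ∧ j % 2 = 1) ∧ f = DD ^ j} := by
      have h4 : DD ^ 4 * T 3 (DD ^ n) + (if (n + 4) % 4 = 3 then DD ^ (n + 4 - 2) else 0) =
          DD ^ 4 * (T 3 (DD ^ n) + (if n % 4 = 3 then DD ^ (n - 2) else 0)) := by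
        rw [mul_add]
        congr 1
        by_cases h5 : n % 4 = 3
        · rw [if_pos h5, if_pos (by omega), ← pow_add]
          congr 1
          omega
        · rw [if_neg h5, if_neg (by omega), mul_zero]
      rw [h4]
      exact HT3_mul DD _ _ 4 (fun j hj => by omega) _ hn
    rw [add_assoc]
    exact Submodule.add_mem _ h1 h2

theorem HT3 (hME3 : ME3_stmt) (hTGR : TGR_stmt) (hEXP : EXP_stmt) : HT3_stmt := by
  intro k hk
  exact HT3_VV _ _ (HT3_aux hME3 hTGR hEXP k (Nat.odd_iff.1 hk))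

end Pool.Agent.LQ
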